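import Mathlib
import Pool.Agent.H51.OmegaDefs
import Pool.Agent.H51.OmegaProof

/-!
# Omega-limit sets along return-time families need not be omega-limit sets

The definitions used in the statement are in `Pool.Agent.H51.OmegaDefs`; the construction is in
`Pool.Agent.H51.OmegaProof`.
-/

open Set Filter Topology Pool.Agent.H51.Omega

namespace Pool.Agent.Results.MP_8a65de_an.NoOmegaLimit

/-- **Main result.** There are a weakly mixing system `(X, T)` on a compact metric space with more
than one point and without isolated points, `T` a continuous surjection, and a point `x ∈ X`, such
that the limit set of `x` along the family `𝒩_T` is not the omega-limit set of any point. -/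
theorem result :
    ∃ (X : Type) (_ : MetricSpace X) (_ : CompactSpace X) (T : X → X) (x : X),
      Nontrivial X ∧ (∀ p : X, ¬ IsOpen ({p} : Set X)) ∧ Continuous T ∧ Function.Surjective T ∧
      IsWeaklyMixing T ∧
      ∀ y : X, omegaLimit atTop (fun (n : ℕ) (p : X) => T^[n] p) {y} ≠ familyOmega T x := by
  refine ⟨Sp, TopologicalSpace.metrizableSpaceMetric Sp, inferInstance, shift, special,
    inferInstance, not_isolated, continuous_shift, surjective_shift, isWeaklyMixing_shift,
    not_omegaLimit⟩

end Pool.Agent.Results.MP_8a65de_an.NoOmegaLimit
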